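import Pool.Agent.Q231.LMD.Main

/-!
# The local metric dimension of planar graphs is `NP`-hard
-/

set_option autoImplicit false

namespace Pool.Agent.Results.MP_6d1543_lc.PlanarHardness

open Pool.Agent.H49R2.PC Pool.Agent.H673R2 Pool.Agent.Q231.LMD

/-- For every language `L` in `NP` there is a polynomial-time many-one reduction of `L` to the
problem to decide, given a graph `G` and a number `k`, whether the local metric dimension of `G` is
at most `k`, and all the graphs produced by the reduction are planar. -/
theorem result : NPHardOn (fun x : Gr × ℕ => IsPlanar x.1) (fun x => dimL x.1 ≤ x.2) :=
  hard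

end Pool.Agent.Results.MP_6d1543_lc.PlanarHardness
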